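import Pool.Agent.H64.NilUniv

namespace Pool.Agent.Results.MP_4977d9_al.NoUniversal

/-- Every element generates a finite-dimensional subalgebra. -/
def IsAlgebraicAlgebra (F A : Type) [Field F] [NonUnitalRing A] [Module F A]
    [IsScalarTower F A A] [SMulCommClass F A A] : Prop :=
  ∀ a : A, FiniteDimensional F (NonUnitalAlgebra.adjoin F {a})

theorem result (F : Type) [Field F] [Countable F] :
    ¬ ∃ (U : Type) (_ : NonUnitalRing U) (_ : Module F U) (_ : IsScalarTower F U U)
        (_ : SMulCommClass F U U),
        IsAlgebraicAlgebra F U ∧ Module.rank F U ≤ Cardinal.aleph0 ∧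
        ∀ (B : Type) [NonUnitalRing B] [Module F B] [IsScalarTower F B B] [SMulCommClass F B B],
          IsAlgebraicAlgebra F B → Module.rank F B ≤ Cardinal.aleph0 →
            ∃ f : U →ₙₐ[F] B, Function.Surjective f :=
  Pool.Agent.H64.NilUniv.algebraic F

end Pool.Agent.Results.MP_4977d9_al.NoUniversal
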